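import Pool.Agent.N71.BI.Stm

/-!
# Project EX: for EVERY real quadratic field the prime ideals of norm at most `D^(1/4+ε)` generate a
subgroup of index at most `C / Λ` of the class group, `Λ = L(1, χ_D) ∏_{p ≤ D} (1 - χ_D(p) / p)`
(statements)
-/

set_option autoImplicit false

namespace Pool.Agent.N71.EX

open Finset Filter NumberField Pool.Agent.H38R2.CG
open scoped Classical

/-- The number of ideals of norm `n` (for `n ≥ 1`). -/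
noncomputable def rr (D n : ℕ) : ℝ := ∑ m ∈ n.divisors, (chi D m : ℝ)

/-- All prime factors are larger than `z`. -/
def Rough (z n : ℕ) : Prop := ∀ p : ℕ, p.Prime → p ∣ n → z < p

/-- All prime factors are at most `z`. -/
def Smooth (z n : ℕ) : Prop := ∀ p : ℕ, p.Prime → p ∣ n → p ≤ z

/-- The density of the ideals whose norm is divisible by `p`. -/
noncomputable def gg (D p : ℕ) : ℝ := 1 - (1 - 1 / (p : ℝ)) * (1 - (chi D p : ℝ) / p)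

/-- The density of the ideals of rough norm. -/
noncomputable def VV (D z : ℕ) : ℝ :=
  ∏ p ∈ (Finset.Icc 1 z).filter Nat.Prime, (1 - 1 / (p : ℝ)) * (1 - (chi D p : ℝ) / p)

/-- The Euler product of `L(1, χ)` over the primes at most `z`. -/
noncomputable def PE (D z : ℕ) : ℝ :=
  ∏ p ∈ (Finset.Icc 1 z).filter Nat.Prime, (1 - (chi D p : ℝ) / p)⁻¹

/-- The number of ideals of norm at most `x` whose norm is rough. -/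
noncomputable def RN (D z x : ℕ) : ℝ := ∑ n ∈ (Finset.Icc 1 x).filter (Rough z), rr D n

/-- NAS: the number of ideals of norm at most `x`, for `x` at least `D^(1/4+η)`. -/
def E_NAS : Prop := ∀ η : ℝ, 0 < η → ∃ δ C : ℝ, 0 < δ ∧ 0 < C ∧ ∀ D : ℕ, IsFund D →
  ∀ x : ℕ, (D : ℝ) ^ (1 / 4 + η) ≤ x → x ≤ D →
    |∑ n ∈ Finset.Icc 1 x, rr D n - Lone D * x| ≤ C * (D : ℝ) ^ (-δ) * x

/-- NQ: the number of ideals of norm at most `Y` and divisible by the squarefree number `q`. -/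
def E_NQ : Prop := ∀ η : ℝ, 0 < η → ∃ δ C : ℝ, 0 < δ ∧ 0 < C ∧ ∀ D : ℕ, IsFund D →
  ∀ q Y : ℕ, Squarefree q → (D : ℝ) ^ (1 / 4 + η) * (q : ℝ) ^ 2 ≤ Y → Y ≤ D →
    |∑ n ∈ (Finset.Icc 1 Y).filter (fun n => q ∣ n), rr D n -
      Lone D * Y * ∏ p ∈ q.primeFactors, gg D p| ≤ C * (D : ℝ) ^ (-δ) * Y

/-- FL: the number of ideals of rough norm at most `Y`. -/
def E_FL : Prop := ∀ η : ℝ, 0 < η → ∃ δ₀ : ℝ, 0 < δ₀ ∧ ∀ δ : ℝ, 0 < δ → δ ≤ δ₀ →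
  ∃ D₀ : ℕ, ∀ D : ℕ, D₀ ≤ D → IsFund D → ∃ z : ℕ, 2 ≤ z ∧ (D : ℝ) ^ (δ / 2) ≤ z ∧
    (z : ℝ) ≤ (D : ℝ) ^ δ ∧ ∀ Y : ℕ, (D : ℝ) ^ (1 / 4 + η) ≤ Y → Y ≤ D →
      1 / 2 * (Lone D * VV D z * Y) ≤ RN D z Y ∧ RN D z Y ≤ 3 / 2 * (Lone D * VV D z * Y)

/-- BLK: partial summation. -/
def E_BLK : Prop := ∀ (a : ℕ → ℝ) (κ : ℝ) (x₁ x₂ : ℕ), (∀ n, 0 ≤ a n) → 0 < κ → 1 ≤ x₁ →
  8 * x₁ ≤ x₂ → (∀ x : ℕ, x₁ ≤ x → x ≤ x₂ →
    1 / 2 * (κ * x) ≤ ∑ n ∈ Finset.Icc 1 x, a n ∧ ∑ n ∈ Finset.Icc 1 x, a n ≤ 3 / 2 * (κ * x)) →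
  κ * Real.log ((x₂ : ℝ) / x₁) / 16 ≤ ∑ n ∈ Finset.Ioc x₁ x₂, a n / n

/-- SMO: the ideals of smooth norm. -/
def E_SMO : Prop := ∃ A : ℕ, ∀ D : ℕ, IsFund D → ∀ z S : ℕ, 2 ≤ z → z ^ A ≤ S →
  1 / 2 ≤ VV D z * ∑ s ∈ (Finset.Icc 1 S).filter (Smooth z), rr D s / s

/-- MER: Mertens. -/
def E_MER : Prop := ∃ c : ℝ, 0 < c ∧ ∀ D : ℕ, IsFund D → ∀ z : ℕ, 2 ≤ z → z ≤ D →
  c ≤ VV D z * Real.log D * PE D D

/-- PEU: the Euler product is at most a constant times the logarithm. -/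
def E_PEU : Prop := ∃ C : ℝ, 0 < C ∧ ∀ D : ℕ, IsFund D → PE D D ≤ C * Real.log D

/-- IDL: many distinct ideals of the form `s * r₁ * r₂`, `s` of smooth norm at most `S`, `r₁`, `r₂`
of rough norm, `x₁ < N r₁ ≤ x₂`, `N (s r₁ r₂) ≤ X`. -/
def E_IDL : Prop := ∀ (K : Type) [Field K] [NumberField K] (D : ℕ), IsFund D →
  Module.finrank ℚ K = 2 → NumberField.discr K = (D : ℤ) →
  ∀ z k S x₁ x₂ X : ℕ, 2 ≤ z → 1 ≤ x₁ → X < z ^ (k + 1) →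
    ∃ F : Finset (Ideal (𝓞 K)), (∀ A ∈ F, A ≠ ⊥ ∧ Ideal.absNorm A ≤ X ∧
      ∃ I J : Ideal (𝓞 K), A = I * J ∧ Ideal.absNorm I ≤ S * x₂ ∧ Ideal.absNorm J * x₁ ≤ X) ∧
      ∑ s ∈ (Finset.Icc 1 S).filter (Smooth z), ∑ m ∈ (Finset.Ioc x₁ x₂).filter (Rough z),
        rr D s * rr D m * RN D z (X / (s * m)) ≤ 2 ^ k * (F.card : ℝ)

/-- `x` belongs to the inverse of `A`. -/
def Inv {K : Type} [Field K] [NumberField K] (A : Ideal (𝓞 K)) (x : K) : Prop :=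
  ∃ B : Ideal (𝓞 K), FractionalIdeal.spanSingleton (nonZeroDivisors (𝓞 K)) x *
    (A : FractionalIdeal (nonZeroDivisors (𝓞 K)) K) = B

/-- The larger one of the two absolute values. -/
noncomputable def mx {K : Type} [Field K] [NumberField K] {D : ℕ} (e : Emb K D) (x : K) : ℝ :=
  max |e.σ x| |e.τ x|

/-- LAT: lattice points. -/
def E_LAT : Prop := ∃ C : ℝ, 0 < C ∧ ∀ (K : Type) [Field K] [NumberField K] (D : ℕ), IsFund D →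
  Module.finrank ℚ K = 2 → NumberField.discr K = (D : ℤ) → ∀ (e : Emb K D) (X : ℕ)
  (F : Finset (Ideal (𝓞 K))), (∀ A ∈ F, A ≠ ⊥ ∧ Ideal.absNorm A ≤ X) → ∀ A ∈ F,
    ∃ x : K, x ≠ 0 ∧ Inv A x ∧ ∑ B ∈ F, KAB e A B ≤
      C * (X / √(D : ℝ)) + C * (√(X : ℝ) / (√(Ideal.absNorm A : ℝ) * mx e x))

/-- SUMA: the sum of the boundary terms. -/
def E_SUMA : Prop := ∃ C₁ : ℝ, 0 < C₁ ∧ ∀ ε : ℝ, 0 < ε → ∃ C : ℝ, 0 < C ∧
  ∀ (K : Type) [Field K] [NumberField K] (D : ℕ), IsFund D →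
  Module.finrank ℚ K = 2 → NumberField.discr K = (D : ℤ) → ∀ (e : Emb K D) (X : ℕ),
  √(D : ℝ) ≤ X → X ≤ D → ∀ F : Finset (Ideal (𝓞 K)), (∀ A ∈ F, A ≠ ⊥ ∧ Ideal.absNorm A ≤ X) →
    ∀ x : Ideal (𝓞 K) → K, (∀ A ∈ F, x A ≠ 0 ∧ Inv A (x A)) →
      ∑ A ∈ F, √(X : ℝ) / (√(Ideal.absNorm A : ℝ) * mx e (x A)) ≤
        C₁ * (F.card * (X / √(D : ℝ))) +
        C * (D : ℝ) ^ ε * (X + X * √(X : ℝ) / (D : ℝ) ^ (1 / 4 : ℝ))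

/-- FF: many ideals which are products of two small ones. -/
def E_FF : Prop := ∀ η : ℝ, 0 < η → η ≤ 1 / 40 → ∃ (c : ℝ) (D₀ : ℕ), 0 < c ∧
  ∀ (K : Type) [Field K] [NumberField K] (D : ℕ), D₀ ≤ D → IsFund D →
  Module.finrank ℚ K = 2 → NumberField.discr K = (D : ℤ) →
    ∃ F : Finset (Ideal (𝓞 K)), (∀ A ∈ F, A ≠ ⊥ ∧
      Ideal.absNorm A ≤ ⌊(D : ℝ) ^ (1 / 2 + 4 * η)⌋₊ ∧
      ∃ I J : Ideal (𝓞 K), A = I * J ∧ (Ideal.absNorm I : ℝ) ≤ (D : ℝ) ^ (1 / 4 + 3 * η) ∧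
        (Ideal.absNorm J : ℝ) ≤ (D : ℝ) ^ (1 / 4 + 3 * η)) ∧
      c * (Lone D / PE D D) * (Lone D * (D : ℝ) ^ (1 / 2 + 4 * η)) ≤ F.card

/-- CNF: the class number formula. -/
def E_CNF : Prop := ∀ (K : Type) [Field K] [NumberField K] (D : ℕ), IsFund D →
  Module.finrank ℚ K = 2 → NumberField.discr K = (D : ℤ) →
    Lone D = 2 * (classNumber K : ℝ) * Units.regulator K / √(D : ℝ)

end Pool.Agent.N71.EX
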