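import Pool.Agent.N71.EX.All1
import Pool.Agent.N45.EX.NAS

set_option autoImplicit false

/-!
# Project EX: assembly
-/

namespace Pool.Agent.N71.EX

open NumberField Pool.Agent.H38R2.CG Pool.Agent.H38R2.CG2 Pool.Agent.H38R2.CG3

theorem t_EX (ε : ℝ) (hε : 0 < ε) :
    ∃ C : ℝ, 0 < C ∧ ∀ (K : Type) [Field K] [NumberField K]
    (D : ℕ), IsFund D → Module.finrank ℚ K = 2 → NumberField.discr K = (D : ℤ) →
    (Nat.card (ClassGroup (𝓞 K)) : ℝ) * (Lone D / PE D D) ≤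
      C * ((Pool.Agent.N71.BI.Two K ((D : ℝ) ^ (1 / 4 + ε))).ncard : ℝ) := by
  exact t_EX0 (t_FF1 Pool.Agent.N45.EX.t_NAS) ε hε

end Pool.Agent.N71.EX
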