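import Pool.Agent.N71.EX.Stm
import Pool.Agent.N71.BI.Stm

/-!
# Project EX: the lower bound of Siegel for `L(1, χ) ∏ (1 - χ(p) / p)`
-/

set_option autoImplicit false

namespace Pool.Agent.N71.EX

open Finset Filter NumberField Pool.Agent.H38R2.CG
open Pool.Agent.N71.BI (E_SIE)
open scoped Classical

theorem low (hSIE : E_SIE) (hPEU : E_PEU) (hPE : ∀ D : ℕ, 0 < PE D D) (ε : ℝ) (hε : 0 < ε) :
    ∃ c : ℝ, 0 < c ∧ ∀ D : ℕ, IsFund D → c * (D : ℝ) ^ (-ε) ≤ Lone D / PE D D := by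
  obtain ⟨cS, hcS, hS⟩ := hSIE (ε / 2) (by positivity)
  obtain ⟨CP, hCP, hP⟩ := hPEU
  refine ⟨cS / (CP * (2 / ε)), by positivity, fun D hD => ?_⟩
  have hDr : (1 : ℝ) < D := by exact_mod_cast hD.1
  have hDp : (0 : ℝ) < D := by linarith
  have hlog : Real.log D ≤ 2 / ε * (D : ℝ) ^ (ε / 2) := by
    have h5 := Real.log_le_rpow_div hDp.le (show 0 < ε / 2 by positivity)
    have h7 : (D : ℝ) ^ (ε / 2) / (ε / 2) = 2 / ε * (D : ℝ) ^ (ε / 2) := by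
      field_simp
    rwa [h7] at h5
  have h5 : PE D D ≤ CP * (2 / ε * (D : ℝ) ^ (ε / 2)) :=
    (hP D hD).trans (mul_le_mul_of_nonneg_left hlog hCP.le)
  have h6 : cS * (D : ℝ) ^ (-(ε / 2)) ≤ Lone D := hS D hD
  have hq : 0 < (D : ℝ) ^ (ε / 2) := Real.rpow_pos_of_pos hDp _
  have h0 : 0 < cS * (D : ℝ) ^ (-(ε / 2)) := mul_pos hcS (Real.rpow_pos_of_pos hDp _)
  have h8 : cS / (CP * (2 / ε)) * (D : ℝ) ^ (-ε) =
      (cS * (D : ℝ) ^ (-(ε / 2))) / (CP * (2 / ε * (D : ℝ) ^ (ε / 2))) := by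
    have e1 : (D : ℝ) ^ (-ε) * (D : ℝ) ^ (ε / 2) = (D : ℝ) ^ (-(ε / 2)) := by
      rw [← Real.rpow_add hDp]
      congr 1
      ring
    rw [← e1]
    field_simp
  rw [h8, le_div_iff₀ (hPE D)]
  have h9 : 0 < CP * (2 / ε * (D : ℝ) ^ (ε / 2)) := by positivity
  calc (cS * (D : ℝ) ^ (-(ε / 2))) / (CP * (2 / ε * (D : ℝ) ^ (ε / 2))) * PE D D
      ≤ (cS * (D : ℝ) ^ (-(ε / 2))) / (CP * (2 / ε * (D : ℝ) ^ (ε / 2))) *
          (CP * (2 / ε * (D : ℝ) ^ (ε / 2))) :=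
        mul_le_mul_of_nonneg_left h5 (div_nonneg h0.le h9.le)
    _ = cS * (D : ℝ) ^ (-(ε / 2)) := div_mul_cancel₀ _ h9.ne'
    _ ≤ Lone D := h6

end Pool.Agent.N71.EX
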