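import Pool.Agent.N71.EX.Fin
import Pool.Agent.N71.EX.Low
import Pool.Agent.N617.BI.SIE
import Pool.Agent.N415.BI.COL
import Pool.Agent.N905.BI.RSUM
import Pool.Agent.N80.EX.BLK
import Pool.Agent.N727.EX.SMO
import Pool.Agent.N478.EX.MER
import Pool.Agent.N776.EX.IDL
import Pool.Agent.N67.EX.SUMA
import Pool.Agent.N323.EX.CNF
import Pool.Agent.N36.EX.LAT
import Pool.Agent.N767.EX.FL

set_option autoImplicit false

/-!
# Project EX: assembly (all but NAS, NQ, FF)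
-/

namespace Pool.Agent.N71.EX

open NumberField Pool.Agent.H38R2.CG Pool.Agent.H38R2.CG2 Pool.Agent.H38R2.CG3

theorem t_EX0 (hFF : E_FF) (ε : ℝ) (hε : 0 < ε) :
    ∃ C : ℝ, 0 < C ∧ ∀ (K : Type) [Field K] [NumberField K]
    (D : ℕ), IsFund D → Module.finrank ℚ K = 2 → NumberField.discr K = (D : ℤ) →
    (Nat.card (ClassGroup (𝓞 K)) : ℝ) * (Lone D / PE D D) ≤
      C * ((Pool.Agent.N71.BI.Two K ((D : ℝ) ^ (1 / 4 + ε))).ncard : ℝ) := by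
  have h_P_N0 : P_N0 := T_N0
  have h_P_SPL : P_SPL := T_SPL h_P_N0
  have h_P_N2 : P_N2 := T_N2 h_P_SPL
  have h_P_KR : P_KR := T_KR
  have h_P_PV : P_PV := T_PV
  have h_P_N3a : P_N3a := T_N3a h_P_KR h_P_PV
  have h_P_N3b : P_N3b := T_N3b h_P_KR h_P_PV h_P_N3a
  have h_P_N3 : P_N3 := T_N3 h_P_N2 h_P_N3b
  have h_P_N4a : P_N4a := T_N4a
  have h_P_N4b : P_N4b := T_N4b
  have h_P_N4 : P_N4 := T_N4 h_P_N4a h_P_N4b
  have h_P_KF : P_KF := T_KF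
  have h_P_N5b : P_N5b := T_N5b h_P_KF h_P_N4
  exact main h_P_N0 h_P_N3 h_P_N4 h_P_KF h_P_N5b h_P_N3a Pool.Agent.N415.BI.t_COL
    Pool.Agent.N905.BI.t_RSUM Pool.Agent.N617.BI.t_SIE Pool.Agent.N36.EX.t_LAT
    Pool.Agent.N67.EX.t_SUMA hFF Pool.Agent.N478.EX.t_PEU ε hε

theorem t_LOW (ε : ℝ) (hε : 0 < ε) :
    ∃ c : ℝ, 0 < c ∧ ∀ D : ℕ, IsFund D → c * (D : ℝ) ^ (-ε) ≤ Lone D / PE D D :=
  low Pool.Agent.N617.BI.t_SIE Pool.Agent.N478.EX.t_PEU (fun D => PE_pos D D) ε hε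

theorem t_N2 : P_N2 := T_N2 (T_SPL T_N0)

end Pool.Agent.N71.EX
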