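import Pool.Agent.N71.EX.All0
import Pool.Agent.N547.EX.NQ
import Pool.Agent.N910.EX.FF

set_option autoImplicit false

/-!
# Project EX: assembly (all but NAS)
-/

namespace Pool.Agent.N71.EX

open NumberField Pool.Agent.H38R2.CG

theorem t_FF1 (hNAS : E_NAS) : E_FF :=
  Pool.Agent.N910.EX.t_FF
    (Pool.Agent.N767.EX.t_FL (Pool.Agent.N547.EX.t_NQ hNAS) Pool.Agent.N617.BI.t_SIE)
    Pool.Agent.N80.EX.t_BLK Pool.Agent.N727.EX.t_SMO Pool.Agent.N478.EX.t_MER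
    Pool.Agent.N776.EX.t_IDL Pool.Agent.N617.BI.t_SIE

end Pool.Agent.N71.EX
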