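import Pool.Agent.N71.EX.Stm
import Pool.Agent.N71.BI.Fin
import Pool.Agent.N415.BI.COL

/-!
# Project EX: end of the proof
-/

set_option autoImplicit false

namespace Pool.Agent.N71.EX

open Finset Filter NumberField Pool.Agent.H38R2.CG Pool.Agent.H38R2.CG2 Pool.Agent.H38R2.CG3
open Pool.Agent.N71.BI (E_COL E_RSUM E_SIE Two Two_mono one_mem_Two ncard_pos crude num)
open scoped Classical

theorem PE_pos (D z : ℕ) : 0 < PE D z := by
  unfold PE
  refine Finset.prod_pos fun p hp => ?_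
  have hp2 := (Finset.mem_filter.1 hp).2.two_le
  have hpr : (2 : ℝ) ≤ p := by exact_mod_cast hp2
  have h1 : |(chi D p : ℝ)| ≤ 1 := by
    have := Pool.Agent.N415.BI.chi_abs_le D p
    exact_mod_cast this
  have h2 : (chi D p : ℝ) / p ≤ 1 / 2 := by
    rw [div_le_iff₀ (by linarith)]
    have := (abs_le.1 h1).2
    linarith
  rw [inv_pos]
  linarith

/-- the near collisions -/
theorem colb (hLAT : E_LAT) (hSUMA : E_SUMA) : ∃ C₁ : ℝ, 0 < C₁ ∧ ∀ ε : ℝ, 0 < ε →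
    ∃ C : ℝ, 0 < C ∧ ∀ (K : Type) [Field K] [NumberField K] (D : ℕ), IsFund D →
    Module.finrank ℚ K = 2 → NumberField.discr K = (D : ℤ) → ∀ (e : Emb K D) (X : ℕ),
    √(D : ℝ) ≤ X → X ≤ D → ∀ F : Finset (Ideal (𝓞 K)), (∀ A ∈ F, A ≠ ⊥ ∧ Ideal.absNorm A ≤ X) →
      ∑ A ∈ F, ∑ B ∈ F, KAB e A B ≤ C₁ * (F.card * (X / √(D : ℝ))) +
        C * (D : ℝ) ^ ε * (X + X * √(X : ℝ) / (D : ℝ) ^ (1 / 4 : ℝ)) := by
  obtain ⟨C0, hC0, hlat⟩ := hLAT
  obtain ⟨C1, hC1, hsum⟩ := hSUMA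
  refine ⟨C0 + C0 * C1, by positivity, fun ε hε => ?_⟩
  obtain ⟨C2, hC2, hs⟩ := hsum ε hε
  refine ⟨C0 * C2, by positivity, fun K _ _ D hD h2 hK e X hX hXD F hF => ?_⟩
  have hl := hlat K D hD h2 hK e X F hF
  have hch : ∀ A : Ideal (𝓞 K), ∃ x : K, A ∈ F → (x ≠ 0 ∧ Inv A x ∧ ∑ B ∈ F, KAB e A B ≤
      C0 * (X / √(D : ℝ)) + C0 * (√(X : ℝ) / (√(Ideal.absNorm A : ℝ) * mx e x))) := by
    intro A
    by_cases hA : A ∈ F
    · obtain ⟨x, hx⟩ := hl A hA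
      exact ⟨x, fun _ => hx⟩
    · exact ⟨0, fun h => absurd h hA⟩
  choose x hx using hch
  have h3 := hs K D hD h2 hK e X hX hXD F hF x (fun A hA => ⟨(hx A hA).1, (hx A hA).2.1⟩)
  calc ∑ A ∈ F, ∑ B ∈ F, KAB e A B
      ≤ ∑ A ∈ F, (C0 * (X / √(D : ℝ)) +
          C0 * (√(X : ℝ) / (√(Ideal.absNorm A : ℝ) * mx e (x A)))) :=
        Finset.sum_le_sum fun A hA => (hx A hA).2.2
    _ = C0 * (F.card * (X / √(D : ℝ))) +
          C0 * ∑ A ∈ F, √(X : ℝ) / (√(Ideal.absNorm A : ℝ) * mx e (x A)) := by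
        rw [Finset.sum_add_distrib, Finset.sum_const, nsmul_eq_mul, ← Finset.mul_sum]
        ring
    _ ≤ C0 * (F.card * (X / √(D : ℝ))) + C0 * (C1 * (F.card * (X / √(D : ℝ))) +
          C2 * (D : ℝ) ^ ε * (X + X * √(X : ℝ) / (D : ℝ) ^ (1 / 4 : ℝ))) := by
        gcongr
    _ = _ := by ring

theorem fin_aux {t R A B B' X : ℝ} (h1 : t ≤ R * (A + B)) (hB : B ≤ B') (hR : 0 ≤ R)
    (hX : 0 ≤ X) : t ≤ (A + B' + X) * R := by
  have h2 : R * (A + B) ≤ R * (A + B' + X) := mul_le_mul_of_nonneg_left (by linarith) hR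
  calc t ≤ R * (A + B) := h1
    _ ≤ R * (A + B' + X) := h2
    _ = _ := mul_comm _ _

/-- **The main inequality, for every real quadratic field.** -/
theorem main (hN0 : P_N0) (hN3 : P_N3) (h4 : P_N4) (hKF : P_KF) (h5b : P_N5b) (hN3a : P_N3a)
    (hCOL : E_COL) (hRSUM : E_RSUM) (hSIE : E_SIE) (hLAT : E_LAT) (hSUMA : E_SUMA) (hFF : E_FF)
    (hPEU : E_PEU) (ε : ℝ) (hε : 0 < ε) :
    ∃ C : ℝ, 0 < C ∧ ∀ (K : Type) [Field K] [NumberField K]
    (D : ℕ), IsFund D → Module.finrank ℚ K = 2 → NumberField.discr K = (D : ℤ) →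
    (Nat.card (ClassGroup (𝓞 K)) : ℝ) * (Lone D / PE D D) ≤
      C * ((Two K ((D : ℝ) ^ (1 / 4 + ε))).ncard : ℝ) := by
  obtain ⟨Cc, hCc, hcrude⟩ := crude hN0 hN3 h4 hKF h5b hN3a hCOL hRSUM
  obtain ⟨C3, hC3, hcolb⟩ := colb hLAT hSUMA
  obtain ⟨CP, hCP, hP⟩ := hPEU
  set ε0 : ℝ := min ε 1 with hε0
  have hε0pos : 0 < ε0 := lt_min hε one_pos
  have hε01 : ε0 ≤ 1 := min_le_right _ _
  have hε0ε : ε0 ≤ ε := min_le_left _ _
  set η : ℝ := ε0 / 40 with hη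
  have hη0 : 0 < η := by positivity
  have hη1 : η ≤ 1 / 40 := by rw [hη]; linarith
  obtain ⟨c, D0, hc, hff⟩ := hFF η hη0 hη1
  obtain ⟨C4, hC4, hcol⟩ := hcolb (η / 2) (by positivity)
  obtain ⟨cS, hcS, hS⟩ := hSIE (η / 8) (by positivity)
  -- the bound for small discriminants
  set D1 : ℕ := max D0 ⌈(2 : ℝ) ^ (1 / (4 * η))⌉₊ with hD1def
  set Lm : ℝ := ∑ D ∈ Finset.range D1, |Lone D / PE D D| with hLm
  have hLm0 : 0 ≤ Lm := Finset.sum_nonneg fun _ _ => abs_nonneg _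
  have hX0 : 0 ≤ Cc * (D1 : ℝ) ^ 2 * Lm := mul_nonneg (mul_nonneg hCc.le (sq_nonneg _)) hLm0
  set C5 : ℝ := 2 * C3 / c + 4 * C4 / c ^ 2 * (CP * (4 / η) / cS ^ 2) with hC5
  have hC5pos : 0 < C5 := by positivity
  refine ⟨C5 + Cc * (D1 : ℝ) ^ 2 * Lm, by positivity, fun K _ _ D hD h2 hK => ?_⟩
  have hDgt : 1 < D := hD.1
  have hDr : (1 : ℝ) < D := by exact_mod_cast hDgt
  have hDp : (0 : ℝ) < D := by linarith
  have hB1 : 1 ≤ (D : ℝ) ^ (1 / 4 + ε) := Real.one_le_rpow hDr.le (by positivity)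
  set R : ℝ := ((Two K ((D : ℝ) ^ (1 / 4 + ε))).ncard : ℝ) with hRdef
  have hR1 : (1 : ℝ) ≤ R := ncard_pos hB1
  have hR0 : 0 ≤ R := by linarith
  set h : ℝ := (Nat.card (ClassGroup (𝓞 K)) : ℝ) with hh
  have hh0 : 0 ≤ h := Nat.cast_nonneg _
  rcases lt_or_ge D D1 with hsmall | hbig
  · -- small discriminants
    have h5 : |Lone D / PE D D| ≤ Lm := by
      rw [hLm]
      exact Finset.single_le_sum (f := fun D : ℕ => |Lone D / PE D D|) (fun _ _ => abs_nonneg _)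
        (Finset.mem_range.2 hsmall)
    have h6 : (D : ℝ) ≤ D1 := by exact_mod_cast hsmall.le
    calc h * (Lone D / PE D D) ≤ h * Lm :=
          mul_le_mul_of_nonneg_left ((le_abs_self _).trans h5) hh0
      _ ≤ (Cc * (D : ℝ) ^ 2) * Lm := mul_le_mul_of_nonneg_right (hcrude K D hD h2 hK) hLm0
      _ ≤ (Cc * (D1 : ℝ) ^ 2) * Lm := by gcongr
      _ ≤ (C5 + Cc * (D1 : ℝ) ^ 2 * Lm) * 1 := by linarith
      _ ≤ _ := mul_le_mul_of_nonneg_left hR1 (by positivity)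
  · -- large discriminants
    obtain ⟨e⟩ := hN0 K D hD h2 hK
    have hD0 : D0 ≤ D := (le_max_left _ _).trans hbig
    have hD2 : (2 : ℝ) ≤ (D : ℝ) ^ (4 * η) := by
      have h5 : (2 : ℝ) ^ (1 / (4 * η)) ≤ D := by
        have h6 : ⌈(2 : ℝ) ^ (1 / (4 * η))⌉₊ ≤ D := (le_max_right _ _).trans hbig
        exact (Nat.le_ceil _).trans (by exact_mod_cast h6)
      calc (2 : ℝ) = ((2 : ℝ) ^ (1 / (4 * η))) ^ (4 * η) := by
            rw [← Real.rpow_mul (by norm_num)]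
            rw [show 1 / (4 * η) * (4 * η) = 1 by field_simp, Real.rpow_one]
        _ ≤ _ := Real.rpow_le_rpow (by positivity) h5 (by positivity)
    obtain ⟨F, hF1, hF2⟩ := hff K D hD0 hD h2 hK
    set M : ℝ := (D : ℝ) ^ (1 / 2 + 4 * η) with hM
    have hMpos : 0 < M := Real.rpow_pos_of_pos hDp _
    set X : ℕ := ⌊M⌋₊ with hX
    have hXM : (X : ℝ) ≤ M := Nat.floor_le hMpos.le
    have hsD1 : 1 ≤ √(D : ℝ) := Real.one_le_sqrt.2 hDr.le
    have hsD0 : 0 < √(D : ℝ) := by linarith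
    have hMs : M = √(D : ℝ) * (D : ℝ) ^ (4 * η) := by
      rw [hM, Real.rpow_add hDp, Real.sqrt_eq_rpow]
    have hXs : √(D : ℝ) ≤ X := by
      have h5 : M < (X : ℝ) + 1 := Nat.lt_floor_add_one M
      have h6 : √(D : ℝ) * 2 ≤ M := by
        rw [hMs]
        exact mul_le_mul_of_nonneg_left hD2 hsD0.le
      linarith
    have hXD : X ≤ D := by
      have h5 : M ≤ D := by
        calc M ≤ (D : ℝ) ^ (1 : ℝ) := Real.rpow_le_rpow_of_exponent_le hDr.le (by linarith)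
          _ = D := Real.rpow_one _
      exact_mod_cast hXM.trans h5
    obtain ⟨T, hT, hT2⟩ := num hN3 h4 hKF h5b K D hD h2 hK e F (fun A hA => (hF1 A hA).1)
    have hcl := hcol K D hD h2 hK e X hXs hXD F (fun A hA => ⟨(hF1 A hA).1, (hF1 A hA).2.1⟩)
    set S : ℝ := ∑ A ∈ F, ∑ B ∈ F, KAB e A B with hSdef
    have hB3 : (D : ℝ) ^ (1 / 4 + 3 * η) ≤ (D : ℝ) ^ (1 / 4 + ε) :=
      Real.rpow_le_rpow_of_exponent_le hDr.le (by rw [hη]; linarith)
    have hTR : (T.card : ℝ) ≤ R := by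
      have hsub : (T : Set (ClassGroup (𝓞 K))) ⊆ Two K ((D : ℝ) ^ (1 / 4 + ε)) := by
        intro C hC
        obtain ⟨A, hA, hAC⟩ := hT C (Finset.mem_coe.1 hC)
        obtain ⟨hA0, -, I, J, hIJ, hI, hJ⟩ := hF1 _ hA
        have hI0 : I ≠ 0 := by
          rintro rfl
          exact hA0 (by rw [hIJ, zero_mul]; rfl)
        have hJ0 : J ≠ 0 := by
          rintro rfl
          exact hA0 (by rw [hIJ, mul_zero]; rfl)
        refine ⟨⟨I, mem_nonZeroDivisors_iff_ne_zero.2 hI0⟩,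
          ⟨J, mem_nonZeroDivisors_iff_ne_zero.2 hJ0⟩, hI.trans hB3, hJ.trans hB3, ?_⟩
        rw [← hAC]
        congr 1
        exact Subtype.ext hIJ.symm
      have h1 : (T : Set (ClassGroup (𝓞 K))).ncard ≤
          (Two K ((D : ℝ) ^ (1 / 4 + ε))).ncard := Set.ncard_le_ncard hsub (Set.toFinite _)
      rw [Set.ncard_coe_finset] at h1
      rw [hRdef]
      exact_mod_cast h1
    -- notation
    have hLpos : 0 < Lone D := lt_of_lt_of_le (by positivity) (hS D hD)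
    set L : ℝ := Lone D with hL
    have hPEp : 0 < PE D D := PE_pos D D
    set lam : ℝ := L / PE D D with hlam
    have hlampos : 0 < lam := div_pos hLpos hPEp
    set n : ℝ := (F.card : ℝ) with hn
    set a : ℝ := c * lam * (L * M) with ha
    have hapos : 0 < a := by positivity
    have han : a ≤ n := hF2
    have hnpos : 0 < n := hapos.trans_le han
    set E : ℝ := C4 * (D : ℝ) ^ (η / 2) * (M + M * √M / (D : ℝ) ^ (1 / 4 : ℝ)) with hE
    have hEpos : 0 < E := by positivity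
    have hS2 : S ≤ C3 * (n * (M / √(D : ℝ))) + E := by
      refine hcl.trans ?_
      have hsq : √(X : ℝ) ≤ √M := Real.sqrt_le_sqrt hXM
      have hX0 : (0 : ℝ) ≤ X := Nat.cast_nonneg _
      rw [hE]
      gcongr
    -- the inequality for `h n ^ 2`
    have hkey : h * n ^ 2 ≤ R * (2 * √(D : ℝ) * L * (C3 * (n * (M / √(D : ℝ))) + E)) := by
      have hS0 : 0 ≤ C3 * (n * (M / √(D : ℝ))) + E := by positivity
      calc h * n ^ 2 ≤ (T.card : ℝ) * (2 * √(D : ℝ) * L * S) := hT2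
        _ ≤ (T.card : ℝ) * (2 * √(D : ℝ) * L * (C3 * (n * (M / √(D : ℝ))) + E)) := by gcongr
        _ ≤ _ := by gcongr
    have hkey2 : h ≤ R * (2 * C3 * (L * M) / n + 2 * √(D : ℝ) * L * E / n ^ 2) := by
      have e1 : R * (2 * C3 * (L * M) / n + 2 * √(D : ℝ) * L * E / n ^ 2) =
          (R * (2 * √(D : ℝ) * L * (C3 * (n * (M / √(D : ℝ))) + E))) / n ^ 2 := by
        field_simp
      rw [e1, le_div_iff₀ (by positivity)]
      exact hkey
    have hkey3 : h ≤ R * (2 * C3 * (L * M) / a + 2 * √(D : ℝ) * L * E / a ^ 2) := by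
      refine hkey2.trans ?_
      gcongr
    have hkey4 : h * lam ≤ R * (2 * C3 / c + 2 * √(D : ℝ) * E / (c ^ 2 * lam * L * M ^ 2)) := by
      calc h * lam ≤ R * (2 * C3 * (L * M) / a + 2 * √(D : ℝ) * L * E / a ^ 2) * lam :=
            mul_le_mul_of_nonneg_right hkey3 hlampos.le
        _ = _ := by
            rw [ha]
            field_simp
    -- the error term
    have hD4 : (D : ℝ) ^ (1 / 4 : ℝ) * (D : ℝ) ^ (1 / 4 : ℝ) = √(D : ℝ) := by
      rw [← Real.rpow_add hDp, Real.sqrt_eq_rpow]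
      norm_num
    have hsM : √M = (D : ℝ) ^ (1 / 4 : ℝ) * (D : ℝ) ^ (2 * η) := by
      rw [← Real.rpow_add hDp, hM, Real.sqrt_eq_rpow, ← Real.rpow_mul hDp.le]
      congr 1
      ring
    have hq0 : 0 < (D : ℝ) ^ (1 / 4 : ℝ) := Real.rpow_pos_of_pos hDp _
    have hE2 : √(D : ℝ) * E / M ^ 2 ≤ 2 * C4 * (D : ℝ) ^ (-(3 / 2 * η)) := by
      have e1 : √(D : ℝ) * E / M ^ 2 = C4 * (D : ℝ) ^ (η / 2) *
          (√(D : ℝ) / M + √(D : ℝ) / (√M * (D : ℝ) ^ (1 / 4 : ℝ))) := by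
        rw [hE]
        have hsMp : 0 < √M := Real.sqrt_pos.2 hMpos
        have h9 : M = √M * √M := (Real.mul_self_sqrt hMpos.le).symm
        field_simp
        rw [mul_add, Real.mul_self_sqrt hMpos.le]
      have e2 : √(D : ℝ) / M = (D : ℝ) ^ (-(4 * η)) := by
        rw [hMs, Real.rpow_neg hDp.le]
        field_simp
      have e3 : √(D : ℝ) / (√M * (D : ℝ) ^ (1 / 4 : ℝ)) = (D : ℝ) ^ (-(2 * η)) := by
        rw [hsM, ← hD4, Real.rpow_neg hDp.le]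
        field_simp
      rw [e1, e2, e3]
      have e4 : (D : ℝ) ^ (-(4 * η)) ≤ (D : ℝ) ^ (-(2 * η)) :=
        Real.rpow_le_rpow_of_exponent_le hDr.le (by linarith)
      have e5 : (D : ℝ) ^ (η / 2) * (D : ℝ) ^ (-(2 * η)) = (D : ℝ) ^ (-(3 / 2 * η)) := by
        rw [← Real.rpow_add hDp]
        congr 1
        ring
      calc C4 * (D : ℝ) ^ (η / 2) * ((D : ℝ) ^ (-(4 * η)) + (D : ℝ) ^ (-(2 * η)))
          ≤ C4 * (D : ℝ) ^ (η / 2) * ((D : ℝ) ^ (-(2 * η)) + (D : ℝ) ^ (-(2 * η))) := by gcongr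
        _ = 2 * C4 * ((D : ℝ) ^ (η / 2) * (D : ℝ) ^ (-(2 * η))) := by ring
        _ = _ := by rw [e5]
    have hlog : Real.log D ≤ 4 / η * (D : ℝ) ^ (η / 4) := by
      have h5 := Real.log_le_rpow_div hDp.le (show 0 < η / 4 by positivity)
      have h7 : (D : ℝ) ^ (η / 4) / (η / 4) = 4 / η * (D : ℝ) ^ (η / 4) := by
        field_simp
      rwa [h7] at h5
    have hlL : cS ^ 2 / (CP * (4 / η)) * (D : ℝ) ^ (-(η / 2)) ≤ lam * L := by
      have h5 : PE D D ≤ CP * (4 / η * (D : ℝ) ^ (η / 4)) :=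
        (hP D hD).trans (mul_le_mul_of_nonneg_left hlog hCP.le)
      have h6 : cS * (D : ℝ) ^ (-(η / 8)) ≤ L := hS D hD
      have h7 : (cS * (D : ℝ) ^ (-(η / 8))) ^ 2 / (CP * (4 / η * (D : ℝ) ^ (η / 4))) ≤
          L ^ 2 / PE D D := by gcongr
      have h8 : (cS * (D : ℝ) ^ (-(η / 8))) ^ 2 / (CP * (4 / η * (D : ℝ) ^ (η / 4))) =
          cS ^ 2 / (CP * (4 / η)) * (D : ℝ) ^ (-(η / 2)) := by
        have e1 : (D : ℝ) ^ (-(η / 2)) * (D : ℝ) ^ (η / 4) = ((D : ℝ) ^ (-(η / 8))) ^ 2 := by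
          rw [← Real.rpow_add hDp, ← Real.rpow_natCast, ← Real.rpow_mul hDp.le]
          congr 1
          push_cast
          ring
        rw [mul_pow, ← e1]
        field_simp
      rw [h8] at h7
      calc _ ≤ L ^ 2 / PE D D := h7
        _ = lam * L := by rw [hlam]; ring
    have hlLpos : 0 < lam * L := by positivity
    have hterm : 2 * √(D : ℝ) * E / (c ^ 2 * lam * L * M ^ 2) ≤
        4 * C4 / c ^ 2 * (CP * (4 / η) / cS ^ 2) := by
      have e1 : 2 * √(D : ℝ) * E / (c ^ 2 * lam * L * M ^ 2) =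
          2 / c ^ 2 * ((√(D : ℝ) * E / M ^ 2) / (lam * L)) := by
        field_simp
      rw [e1]
      have h5 : (√(D : ℝ) * E / M ^ 2) / (lam * L) ≤
          (2 * C4 * (D : ℝ) ^ (-(3 / 2 * η))) / (cS ^ 2 / (CP * (4 / η)) *
            (D : ℝ) ^ (-(η / 2))) := by
        have h6 : 0 ≤ √(D : ℝ) * E / M ^ 2 := by positivity
        have h7 : 0 < cS ^ 2 / (CP * (4 / η)) * (D : ℝ) ^ (-(η / 2)) := by positivity
        gcongr
      have h6 : (2 * C4 * (D : ℝ) ^ (-(3 / 2 * η))) / (cS ^ 2 / (CP * (4 / η)) *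
            (D : ℝ) ^ (-(η / 2))) = 2 * C4 * (CP * (4 / η) / cS ^ 2) * (D : ℝ) ^ (-η) := by
        have e2 : (D : ℝ) ^ (-(3 / 2 * η)) = (D : ℝ) ^ (-η) * (D : ℝ) ^ (-(η / 2)) := by
          rw [← Real.rpow_add hDp]
          congr 1
          ring
        rw [e2]
        have h8 : 0 < (D : ℝ) ^ (-(η / 2)) := Real.rpow_pos_of_pos hDp _
        field_simp
      have h7 : (D : ℝ) ^ (-η) ≤ 1 :=
        Real.rpow_le_one_of_one_le_of_nonpos hDr.le (by linarith)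
      have h8 : 0 ≤ 2 * C4 * (CP * (4 / η) / cS ^ 2) := by positivity
      calc 2 / c ^ 2 * ((√(D : ℝ) * E / M ^ 2) / (lam * L))
          ≤ 2 / c ^ 2 * (2 * C4 * (CP * (4 / η) / cS ^ 2) * (D : ℝ) ^ (-η)) := by
            rw [← h6]
            gcongr
        _ ≤ 2 / c ^ 2 * (2 * C4 * (CP * (4 / η) / cS ^ 2) * 1) := by gcongr
        _ = _ := by ring
    exact fin_aux hkey4 hterm hR0 hX0

end Pool.Agent.N71.EX
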