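import Pool.Agent.N71.EX.Stm
import Pool.Agent.N38.BI.CNTh
import Pool.Agent.N665.BI.BUR

/-!
# Project EX, leaf NAS: the number of ideals of norm at most `x`
-/

set_option autoImplicit false

namespace Pool.Agent.N71.EX.NASx

open Finset Filter NumberField Pool.Agent.H38R2.CG Pool.Agent.N38.BI
open Pool.Agent.N71.BI (E_BUR)
open scoped Classical

theorem main2 (f : ℕ → ℝ) (β L E : ℝ) (hβ : 0 ≤ β) (hf : ∀ n : ℕ, 1 ≤ n → |f n| ≤ 1)
    (y : ℕ) (hy : 1 ≤ y)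
    (hS : ∀ t : ℕ, y ≤ t → |∑ n ∈ Finset.Icc 1 t, f n| ≤ β * t) (x : ℕ) (hyx : y ≤ x)
    (T : ℕ) (hyT : y ≤ T) (hL : |L - ∑ n ∈ Finset.Icc 1 T, f n / n| ≤ E) :
    |∑ n ∈ Finset.Icc 1 x, ∑ m ∈ n.divisors, f m - L * x| ≤
      x * (E + β * (3 + Real.log T)) + y + 2 * β * x * (1 + Real.log x) := by
  have h1 := CNTh.hyper f β hβ hf y hy hS x hyx
  have h2 := CNTh.tail f β hβ y hy hS T hyT
  have e : ∑ n ∈ Finset.Icc 1 T, f n / n =
      ∑ n ∈ Finset.Icc 1 y, f n / n + ∑ m ∈ Finset.Ioc y T, f m / m := by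
    rw [← Finset.sum_union]
    · congr 1
      ext m
      simp only [Finset.mem_union, Finset.mem_Icc, Finset.mem_Ioc]
      omega
    · rw [Finset.disjoint_left]
      intro m h1 h2
      rw [Finset.mem_Icc] at h1
      rw [Finset.mem_Ioc] at h2
      omega
  rw [e] at hL
  have h3 : |∑ n ∈ Finset.Icc 1 y, f n / n - L| ≤ E + β * (3 + Real.log T) := by
    have a1 := abs_le.1 hL
    have a2 := abs_le.1 h2
    rw [abs_le]
    constructor <;> linarith [a1.1, a1.2, a2.1, a2.2]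
  have h4 : |(x : ℝ) * ∑ n ∈ Finset.Icc 1 y, f n / n - L * x| ≤
      x * (E + β * (3 + Real.log T)) := by
    have e2 : (x : ℝ) * ∑ n ∈ Finset.Icc 1 y, f n / n - L * x =
        x * (∑ n ∈ Finset.Icc 1 y, f n / n - L) := by ring
    rw [e2, abs_mul, abs_of_nonneg (Nat.cast_nonneg x)]
    exact mul_le_mul_of_nonneg_left h3 (Nat.cast_nonneg _)
  have a1 := abs_le.1 h1
  have a2 := abs_le.1 h4
  rw [abs_le]
  constructor <;> linarith [a1.1, a1.2, a2.1, a2.2]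

theorem nas (hBUR : E_BUR) : E_NAS := by
  intro η hη
  obtain ⟨d, C, hd, hC, hB⟩ := hBUR (η / 2) (by positivity)
  obtain ⟨C', hC', hN3a⟩ := T_N3a T_KR T_PV
  set s : ℝ := min (d / 2) (min (η / 2) (1 / 2)) with hs
  have hs0 : 0 < s := lt_min (by positivity) (lt_min (by positivity) (by norm_num))
  have hs1 : s ≤ d / 2 := min_le_left _ _
  have hs2 : s ≤ η / 2 := (min_le_right _ _).trans (min_le_left _ _)
  have hs3 : s ≤ 1 / 2 := (min_le_right _ _).trans (min_le_right _ _)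
  refine ⟨s, C' / s + C * (3 + 2 / s) + 2 + 2 * C * (1 + 1 / s), hs0, by positivity, ?_⟩
  intro D hD x hx hxD
  have hDr : (1 : ℝ) < D := by exact_mod_cast hD.1
  have hDp : (0 : ℝ) < D := by linarith
  have hx1 : 1 ≤ x := by
    have h1 : (1 : ℝ) ≤ (D : ℝ) ^ (1 / 4 + η) := Real.one_le_rpow hDr.le (by positivity)
    have h2 : (1 : ℝ) ≤ x := h1.trans hx
    exact_mod_cast h2
  have hxp : (0 : ℝ) < x := by exact_mod_cast hx1
  set β : ℝ := C * (D : ℝ) ^ (-d) with hβdef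
  have hβ : 0 ≤ β := by positivity
  set y : ℕ := ⌈(D : ℝ) ^ (1 / 4 + η / 2)⌉₊ with hydef
  have hpow1 : (1 : ℝ) ≤ (D : ℝ) ^ (1 / 4 + η / 2) := Real.one_le_rpow hDr.le (by positivity)
  have hy1 : 1 ≤ y := by
    rw [hydef, Nat.one_le_ceil_iff]
    linarith
  have hyx : y ≤ x := by
    rw [hydef, Nat.ceil_le]
    refine le_trans ?_ hx
    exact Real.rpow_le_rpow_of_exponent_le hDr.le (by linarith)
  have hy2 : (y : ℝ) ≤ 2 * (D : ℝ) ^ (-(η / 2)) * x := by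
    have h1 : (y : ℝ) < (D : ℝ) ^ (1 / 4 + η / 2) + 1 := Nat.ceil_lt_add_one (by positivity)
    have h2 : (D : ℝ) ^ (1 / 4 + η / 2) = (D : ℝ) ^ (-(η / 2)) * (D : ℝ) ^ (1 / 4 + η) := by
      rw [← Real.rpow_add hDp]
      congr 1
      ring
    have h3 : (D : ℝ) ^ (-(η / 2)) * (D : ℝ) ^ (1 / 4 + η) ≤ (D : ℝ) ^ (-(η / 2)) * x :=
      mul_le_mul_of_nonneg_left hx (Real.rpow_nonneg hDp.le _)
    linarith
  have hT : y ≤ D ^ 2 := by
    have hD1 := hD.1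
    calc y ≤ D := hyx.trans hxD
      _ ≤ D ^ 2 := by nlinarith
  have hT1 : 1 ≤ D ^ 2 := Nat.one_le_pow _ _ (by have := hD.1; omega)
  have hf : ∀ n : ℕ, 1 ≤ n → |(chi D n : ℝ)| ≤ 1 := by
    intro n hn
    obtain ⟨χ, hχ1, hχ⟩ := T_KR D hD
    have h := DirichletCharacter.norm_le_one χ (n : ZMod D)
    rw [hχ n hn, Complex.norm_intCast] at h
    exact_mod_cast h
  have hBS : ∀ t : ℕ, y ≤ t → |∑ n ∈ Finset.Icc 1 t, (chi D n : ℝ)| ≤ β * t := by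
    intro t ht
    apply hB D hD t
    calc (D : ℝ) ^ (1 / 4 + η / 2) ≤ y := Nat.le_ceil _
      _ ≤ t := by exact_mod_cast ht
  have hmain := main2 (fun n => (chi D n : ℝ)) β (Lone D)
    (C' * √(D : ℝ) * Real.log D / ((D ^ 2 : ℕ) : ℝ)) hβ hf y hy1 hBS x hyx (D ^ 2) hT
    (hN3a D hD (D ^ 2) hT1)
  have hlogT : Real.log ((D ^ 2 : ℕ) : ℝ) = 2 * Real.log D := by
    push_cast
    rw [Real.log_pow]
    norm_num
  have hlogx : Real.log x ≤ Real.log D :=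
    Real.log_le_log hxp (by exact_mod_cast hxD)
  have hlog : Real.log D ≤ 1 / s * (D : ℝ) ^ s := by
    have h5 := Real.log_le_rpow_div hDp.le hs0
    have h7 : (D : ℝ) ^ s / s = 1 / s * (D : ℝ) ^ s := by ring
    rwa [h7] at h5
  set P : ℝ := (D : ℝ) ^ (-s) with hP
  have hPpos : 0 < P := Real.rpow_pos_of_pos hDp _
  have hpm : ∀ a b : ℝ, a ≤ b → (D : ℝ) ^ a ≤ (D : ℝ) ^ b := fun a b h =>
    Real.rpow_le_rpow_of_exponent_le hDr.le h
  -- the four terms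
  have t1 : C' * √(D : ℝ) * Real.log D / ((D ^ 2 : ℕ) : ℝ) ≤ C' / s * P := by
    have h1 : √(D : ℝ) * (D : ℝ) ^ s / ((D ^ 2 : ℕ) : ℝ) = (D : ℝ) ^ (s - 3 / 2) := by
      rw [Real.sqrt_eq_rpow, ← Real.rpow_add hDp]
      push_cast
      rw [← Real.rpow_natCast (D : ℝ) 2, ← Real.rpow_sub hDp]
      congr 1
      push_cast
      ring
    calc C' * √(D : ℝ) * Real.log D / ((D ^ 2 : ℕ) : ℝ)
        ≤ C' * √(D : ℝ) * (1 / s * (D : ℝ) ^ s) / ((D ^ 2 : ℕ) : ℝ) := by gcongr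
      _ = C' / s * (√(D : ℝ) * (D : ℝ) ^ s / ((D ^ 2 : ℕ) : ℝ)) := by ring
      _ = C' / s * (D : ℝ) ^ (s - 3 / 2) := by rw [h1]
      _ ≤ C' / s * P := mul_le_mul_of_nonneg_left (hpm _ _ (by linarith)) (by positivity)
  have hds : (D : ℝ) ^ (-d) * (D : ℝ) ^ s ≤ P := by
    rw [← Real.rpow_add hDp]
    exact hpm _ _ (by linarith)
  have hdP : (D : ℝ) ^ (-d) ≤ P := hpm _ _ (by linarith)
  have t2 : β * (3 + 2 * Real.log D) ≤ C * (3 + 2 / s) * P := by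
    calc β * (3 + 2 * Real.log D) ≤ β * (3 + 2 * (1 / s * (D : ℝ) ^ s)) := by gcongr
      _ = C * (3 * (D : ℝ) ^ (-d) + 2 / s * ((D : ℝ) ^ (-d) * (D : ℝ) ^ s)) := by
          rw [hβdef]
          ring
      _ ≤ C * (3 * P + 2 / s * P) := by gcongr
      _ = _ := by ring
  have t3 : (y : ℝ) ≤ 2 * P * x := by
    refine hy2.trans ?_
    have : (D : ℝ) ^ (-(η / 2)) ≤ P := hpm _ _ (by linarith)
    gcongr
  have t4 : 2 * β * x * (1 + Real.log x) ≤ 2 * C * (1 + 1 / s) * P * x := by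
    calc 2 * β * x * (1 + Real.log x) ≤ 2 * β * x * (1 + 1 / s * (D : ℝ) ^ s) := by
          have := hlogx.trans hlog
          gcongr
      _ = 2 * C * ((D : ℝ) ^ (-d) + 1 / s * ((D : ℝ) ^ (-d) * (D : ℝ) ^ s)) * x := by
          rw [hβdef]
          ring
      _ ≤ 2 * C * (P + 1 / s * P) * x := by gcongr
      _ = _ := by ring
  rw [hlogT] at hmain
  show |∑ n ∈ Finset.Icc 1 x, ∑ m ∈ n.divisors, (chi D m : ℝ) - Lone D * x| ≤ _
  calc |∑ n ∈ Finset.Icc 1 x, ∑ m ∈ n.divisors, (chi D m : ℝ) - Lone D * x|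
      ≤ x * (C' * √(D : ℝ) * Real.log D / ((D ^ 2 : ℕ) : ℝ) + β * (3 + 2 * Real.log D)) + y +
        2 * β * x * (1 + Real.log x) := hmain
    _ ≤ x * (C' / s * P + C * (3 + 2 / s) * P) + 2 * P * x + 2 * C * (1 + 1 / s) * P * x := by
        gcongr
    _ = _ := by ring

theorem t_NASx : E_NAS := nas Pool.Agent.N665.BI.t_BUR

end Pool.Agent.N71.EX.NASx
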